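import Pool.Agent.Helper88.P3.PGL

/-!
Amalgamated products: it is enough to look at the subgroups generated by the letters.
-/

set_option autoImplicit false

namespace Pool.Agent.Helper88.P3

universe u v w

/-- The family of two groups, in one universe. -/
def Fm (G₁ : Type u) (G₂ : Type v) : Bool → Type (max u v)
  | true => ULift.{v} G₁
  | false => ULift.{u} G₂

instance (G₁ : Type u) (G₂ : Type v) [Group G₁] [Group G₂] : ∀ b, Group (Fm G₁ G₂ b)
  | true => inferInstanceAs (Group (ULift.{v} G₁))
  | false => inferInstanceAs (Group (ULift.{u} G₂))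

/-- The two maps. -/
def fm {H : Type w} {G₁ : Type u} {G₂ : Type v} [Group H] [Group G₁] [Group G₂]
    (f : H →* G₁) (g : H →* G₂) : ∀ b, H →* Fm G₁ G₂ b
  | true => (MulEquiv.ulift.{u, v} (α := G₁)).symm.toMonoidHom.comp f
  | false => (MulEquiv.ulift.{v, u} (α := G₂)).symm.toMonoidHom.comp g

/-- Two groups with a common subgroup embed in a group. -/
theorem exists_amalgam {H : Type w} {G₁ : Type u} {G₂ : Type v} [Group H] [Group G₁] [Group G₂]
    (f : H →* G₁) (g : H →* G₂) (hf : Function.Injective f) (hg : Function.Injective g) :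
    ∃ (P : Type (max u v w)) (_ : Group P) (i : G₁ →* P) (j : G₂ →* P),
      Function.Injective i ∧ Function.Injective j ∧ ∀ h, i (f h) = j (g h) := by
  have hinj : ∀ b, Function.Injective (fm f g b) := by
    intro b
    cases b
    · intro x y hxy
      exact hg (ULift.up_injective hxy)
    · intro x y hxy
      exact hf (ULift.up_injective hxy)
  refine ⟨Monoid.PushoutI (fm f g), inferInstance,
    (Monoid.PushoutI.of (φ := fm f g) true).comp (MulEquiv.ulift.{u, v} (α := G₁)).symm.toMonoidHom,
    (Monoid.PushoutI.of (φ := fm f g) false).comp (MulEquiv.ulift.{v, u} (α := G₂)).symm.toMonoidHom,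
    ?_, ?_, ?_⟩
  · intro x y hxy
    exact ULift.up_injective (Monoid.PushoutI.of_injective hinj true hxy)
  · intro x y hxy
    exact ULift.up_injective (Monoid.PushoutI.of_injective hinj false hxy)
  · intro h
    exact (Monoid.PushoutI.of_apply_eq_base (fm f g) true h).trans
      (Monoid.PushoutI.of_apply_eq_base (fm f g) false h).symm

section

variable {A : Type u} {B : Type v} [Group A] [Group B]

/-- If some homomorphism kills the relator and is injective on `A`, then `A` embeds. -/
theorem inj_of_hom {P : Type w} [Group P] (F : Monoid.Coprod A B →* P) (s : Monoid.Coprod A B)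
    (hs : F s = 1) (hF : Function.Injective (F.comp Monoid.Coprod.inl)) :
    Function.Injective
      ((QuotientGroup.mk' (Subgroup.normalClosure ({s} : Set (Monoid.Coprod A B)))).comp
        (Monoid.Coprod.inl : A →* Monoid.Coprod A B)) := by
  rw [injective_iff_map_eq_one]
  intro a ha
  have h1 : (Monoid.Coprod.inl a : Monoid.Coprod A B) ∈ Subgroup.normalClosure {s} :=
    (QuotientGroup.eq_one_iff (N := Subgroup.normalClosure ({s} : Set (Monoid.Coprod A B)))
      (Monoid.Coprod.inl a)).1 ha
  have h2 : Subgroup.normalClosure ({s} : Set (Monoid.Coprod A B)) ≤ F.ker := by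
    apply Subgroup.normalClosure_le_normal
    rintro _ rfl
    exact hs
  have h3 : F (Monoid.Coprod.inl a) = 1 := h2 h1
  apply hF
  rw [MonoidHom.comp_apply, MonoidHom.comp_apply, h3, map_one, map_one]

/-- The theorem, for the subgroups `A₀`, `B₀` generated by the letters. -/
theorem main_sub (A₀ : Subgroup A) (B₀ : Subgroup B)
    (hA : ∀ a : A₀, a ≠ 1 → ∃ ρ : A₀ →* PGL3, ρ a ≠ 1)
    (φ : B₀ →* Multiplicative (ZMod 3)) (r : Monoid.Coprod A₀ B₀)
    (hr : Monoid.Coprod.lift (1 : A₀ →* Multiplicative (ZMod 3)) φ r ≠ 1)
    (hB : B₀ = ⊤ ∨ Monoid.Coprod.snd r ^ 3 = 1) (m : ℕ) (hm : 3 ∣ m) :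
    Function.Injective
      ((QuotientGroup.mk' (Subgroup.normalClosure
          ({Monoid.Coprod.map A₀.subtype B₀.subtype r ^ m} : Set (Monoid.Coprod A B)))).comp
        (Monoid.Coprod.inl : A →* Monoid.Coprod A B)) := by
  have h0 := main hA φ r hr m hm
  set q := QuotientGroup.mk' (Subgroup.normalClosure ({r ^ m} : Set (Monoid.Coprod A₀ B₀))) with hq
  have hqr : q (r ^ m) = 1 :=
    (QuotientGroup.eq_one_iff _).2 (Subgroup.subset_normalClosure (Set.mem_singleton _))
  obtain ⟨P, _, i, j, hi, hj, hij⟩ := exists_amalgam A₀.subtype (q.comp Monoid.Coprod.inl)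
    A₀.subtype_injective h0
  rcases hB with hB | hB
  · subst hB
    refine inj_of_hom (P := P) (Monoid.Coprod.lift i
      ((j.comp (q.comp Monoid.Coprod.inr)).comp (Subgroup.topEquiv.symm.toMonoidHom : B →* (⊤ : Subgroup B))))
      _ ?_ ?_
    · have key : (Monoid.Coprod.lift i
          ((j.comp (q.comp Monoid.Coprod.inr)).comp (Subgroup.topEquiv.symm.toMonoidHom : B →* (⊤ : Subgroup B)))).comp
          (Monoid.Coprod.map A₀.subtype (⊤ : Subgroup B).subtype) = j.comp q := by
        apply Monoid.Coprod.hom_ext
        · ext a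
          exact hij a
        · ext b
          rfl
      have := DFunLike.congr_fun key (r ^ m)
      rw [MonoidHom.comp_apply, MonoidHom.comp_apply, hqr, map_one, map_pow] at this
      exact this
    · intro x y hxy
      exact hi hxy
  · have hinj : Function.Injective (j.comp (q.comp Monoid.Coprod.inr)) := by
      have h1 : Function.Injective (q.comp (Monoid.Coprod.inr : B₀ →* Monoid.Coprod A₀ B₀)) := by
        have h2 : Subgroup.normalClosure ({r ^ m} : Set (Monoid.Coprod A₀ B₀)) ≤
            (Monoid.Coprod.snd : Monoid.Coprod A₀ B₀ →* B₀).ker := by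
          apply Subgroup.normalClosure_le_normal
          rintro _ rfl
          show Monoid.Coprod.snd (r ^ m) = 1
          obtain ⟨k, rfl⟩ := hm
          rw [map_pow, pow_mul, hB, one_pow]
        rw [injective_iff_map_eq_one]
        intro b hb
        have h3 : (Monoid.Coprod.inr b : Monoid.Coprod A₀ B₀) ∈
            Subgroup.normalClosure ({r ^ m} : Set (Monoid.Coprod A₀ B₀)) :=
          (QuotientGroup.eq_one_iff _).1 hb
        exact h2 h3
      exact hj.comp h1
    obtain ⟨P', _, i', j', hi', hj', hij'⟩ := exists_amalgam (j.comp (q.comp Monoid.Coprod.inr))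
      B₀.subtype hinj B₀.subtype_injective
    refine inj_of_hom (P := P') (Monoid.Coprod.lift (i'.comp i) j') _ ?_ ?_
    · have key : (Monoid.Coprod.lift (i'.comp i) j').comp
          (Monoid.Coprod.map A₀.subtype B₀.subtype) = i'.comp (j.comp q) := by
        apply Monoid.Coprod.hom_ext
        · ext a
          exact congrArg i' (hij a)
        · ext b
          exact (hij' b).symm
      have := DFunLike.congr_fun key (r ^ m)
      rw [MonoidHom.comp_apply, MonoidHom.comp_apply, MonoidHom.comp_apply, hqr, map_one, map_one,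
        map_pow] at this
      exact this
    · intro x y hxy
      exact hi (hi' hxy)

end

end Pool.Agent.Helper88.P3
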