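import Mathlib

/-!
Unitary 3 by 3 matrices: a matrix of trace zero has a scalar cube; the family `g z` in `U(3)`;
the clock and shift matrices.
-/

set_option autoImplicit false

namespace Pool.Agent.Helper88.P3

open Complex Matrix

/-- The unitary group `U(3)`. -/
abbrev U3 : Type := Matrix.unitaryGroup (Fin 3) ℂ

/-- The coefficients of the characteristic polynomial of a 3 by 3 matrix (Cayley-Hamilton). -/
theorem cayley (M : Matrix (Fin 3) (Fin 3) ℂ) :
    M ^ 3 = M.trace • M ^ 2 - (adjugate M).trace • M + M.det • (1 : Matrix (Fin 3) (Fin 3) ℂ) := by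
  ext i j
  fin_cases i <;> fin_cases j <;>
    simp [pow_succ, Matrix.mul_apply, Fin.sum_univ_three, Matrix.trace, Matrix.det_fin_three,
      Matrix.adjugate_fin_three, Matrix.smul_apply] <;> ring

theorem trace_adjugate (M : U3) :
    (adjugate (M : Matrix (Fin 3) (Fin 3) ℂ)).trace =
      (M : Matrix (Fin 3) (Fin 3) ℂ).det * (starRingEnd ℂ) ((M : Matrix (Fin 3) (Fin 3) ℂ).trace) := by
  obtain ⟨N, hM⟩ := M
  show (adjugate N).trace = N.det * (starRingEnd ℂ) N.trace
  have h1 : N * star N = 1 := Matrix.mem_unitaryGroup_iff.1 hM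
  have h2 : adjugate N = N.det • star N := by
    calc adjugate N = adjugate N * (N * star N) := by rw [h1, mul_one]
      _ = (adjugate N * N) * star N := by rw [mul_assoc]
      _ = (N.det • (1 : Matrix (Fin 3) (Fin 3) ℂ)) * star N := by rw [adjugate_mul]
      _ = N.det • star N := by simp
  rw [h2, Matrix.trace_smul, Matrix.star_eq_conjTranspose, Matrix.trace_conjTranspose]
  rfl

theorem cube_scalar (M : U3) (h : (M : Matrix (Fin 3) (Fin 3) ℂ).trace = 0) :
    ((M ^ 3 : U3) : Matrix (Fin 3) (Fin 3) ℂ) =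
      (M : Matrix (Fin 3) (Fin 3) ℂ).det • (1 : Matrix (Fin 3) (Fin 3) ℂ) := by
  have h1 := cayley (M : Matrix (Fin 3) (Fin 3) ℂ)
  rw [trace_adjugate, h, map_zero, mul_zero, zero_smul, zero_smul, sub_zero, zero_add] at h1
  rw [← h1]
  rfl

theorem cube_central (M : U3) (h : (M : Matrix (Fin 3) (Fin 3) ℂ).trace = 0) :
    M ^ 3 ∈ Subgroup.center U3 := by
  rw [Subgroup.mem_center_iff]
  intro g
  apply Subtype.ext
  rw [Matrix.UnitaryGroup.mul_val, Matrix.UnitaryGroup.mul_val, cube_scalar M h]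
  simp

/-- A primitive cube root of unity. -/
noncomputable def om : ℂ := exp (2 * Real.pi * I / 3)

theorem om_prim : IsPrimitiveRoot om 3 := Complex.isPrimitiveRoot_exp 3 (by norm_num)

theorem om_cube : om ^ 3 = 1 := om_prim.pow_eq_one

theorem om_norm : ‖om‖ = 1 := by
  have : ‖om‖ ^ 3 = 1 := by rw [← norm_pow, om_cube, norm_one]
  exact (pow_eq_one_iff_of_nonneg (norm_nonneg _) (by norm_num)).1 this

theorem om_conj : om * (starRingEnd ℂ) om = 1 := by
  rw [mul_conj, normSq_eq_norm_sq, om_norm]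
  norm_num

theorem om_conj' : (starRingEnd ℂ) om = om ^ 2 := by
  have h1 := om_conj
  have h2 : om * om ^ 2 = 1 := by rw [← om_cube]; ring
  have h0 : om ≠ 0 := by
    intro h
    rw [h] at h2
    norm_num at h2
  exact mul_left_cancel₀ h0 (h1.trans h2.symm)

/-- The clock matrix `diag (1, ω, ω²)`. -/
noncomputable def dd : Matrix (Fin 3) (Fin 3) ℂ := !![1, 0, 0; 0, om, 0; 0, 0, om ^ 2]

/-- The shift matrix. -/
noncomputable def pp : Matrix (Fin 3) (Fin 3) ℂ := !![0, 0, 1; 1, 0, 0; 0, 1, 0]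

theorem pp_mem : pp ∈ Matrix.unitaryGroup (Fin 3) ℂ := by
  rw [Matrix.mem_unitaryGroup_iff]
  ext i j
  fin_cases i <;> fin_cases j <;>
    simp [pp, Matrix.mul_apply, Fin.sum_univ_three, Matrix.star_apply]

/-- The shift as a unitary matrix. -/
noncomputable def pU : U3 := ⟨pp, pp_mem⟩

theorem pU_cube : pU ^ 3 = 1 := by
  apply Subtype.ext
  show pp ^ 3 = 1
  ext i j
  fin_cases i <;> fin_cases j <;>
    simp [pp, pow_succ, Matrix.mul_apply, Fin.sum_univ_three]

theorem clock_shift : dd * pp = om • (pp * dd) := by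
  have h3 : om ^ 3 = 1 := om_cube
  ext i j
  fin_cases i <;> fin_cases j <;>
    simp [pp, dd, Matrix.mul_apply, Fin.sum_univ_three, Matrix.smul_apply] <;>
    first | ring1 | linear_combination h3 | linear_combination (-1 : ℂ) * h3

/-- The normalising factor. -/
noncomputable def rho (z : ℂ) : ℝ := Real.sqrt (‖z‖ ^ 2 + (1 - ‖z‖) ^ 2)

theorem rho_pos (z : ℂ) : 0 < rho z := by
  apply Real.sqrt_pos.2
  nlinarith [sq_nonneg (‖z‖ - 1 / 2), norm_nonneg z, sq_nonneg (2 * ‖z‖ - 1)]

theorem rho_sq (z : ℂ) : rho z ^ 2 = ‖z‖ ^ 2 + (1 - ‖z‖) ^ 2 :=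
  Real.sq_sqrt (by positivity)

/-- The family of unitary matrices. -/
noncomputable def gg (z : ℂ) : Matrix (Fin 3) (Fin 3) ℂ :=
  !![1, 0, 0;
     0, z / rho z, -((1 - ‖z‖ : ℝ) : ℂ) / rho z;
     0, ((1 - ‖z‖ : ℝ) : ℂ) / rho z, (starRingEnd ℂ) z / rho z]

theorem gg_mem (z : ℂ) : gg z ∈ Matrix.unitaryGroup (Fin 3) ℂ := by
  rw [Matrix.mem_unitaryGroup_iff]
  have hr : (rho z : ℂ) ≠ 0 := by exact_mod_cast (rho_pos z).ne'
  have hs : (rho z : ℂ) ^ 2 = z * (starRingEnd ℂ) z + ((1 - ‖z‖ : ℝ) : ℂ) ^ 2 := by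
    rw [mul_conj, normSq_eq_norm_sq]
    have := rho_sq z
    exact_mod_cast this
  ext i j
  fin_cases i <;> fin_cases j <;>
    simp [gg, Matrix.mul_apply, Fin.sum_univ_three, Matrix.star_apply, map_div₀] <;>
    field_simp <;>
    (rw [hs]; push_cast; ring)

/-- The family as unitary matrices. -/
noncomputable def gU (z : ℂ) : U3 := ⟨gg z, gg_mem z⟩

theorem continuous_gg : Continuous gg := by
  have h1 : Continuous rho := by
    unfold rho
    fun_prop
  have h2 : ∀ z, (rho z : ℂ) ≠ 0 := fun z => by exact_mod_cast (rho_pos z).ne'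
  have h3 : Continuous fun z => (rho z : ℂ) := by fun_prop
  refine continuous_matrix fun i j => ?_
  fin_cases i <;> fin_cases j <;> simp [gg]
  all_goals first | exact continuous_const | skip
  · exact continuous_id.div h3 h2
  · exact (by fun_prop : Continuous fun z : ℂ => (‖z‖ : ℂ) - 1).div h3 h2
  · exact (by fun_prop : Continuous fun z : ℂ => 1 - (‖z‖ : ℂ)).div h3 h2
  · exact (by fun_prop : Continuous fun z : ℂ => (starRingEnd ℂ) z).div h3 h2

theorem gg_rot (z : ℂ) (hz : ‖z‖ = 1) : gg (om * z) = gg z * dd := by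
  have hn : ‖om * z‖ = 1 := by rw [norm_mul, om_norm, hz, one_mul]
  have hr : rho (om * z) = 1 := by
    unfold rho
    rw [hn]
    norm_num
  have hr' : rho z = 1 := by
    unfold rho
    rw [hz]
    norm_num
  ext i j
  fin_cases i <;> fin_cases j <;>
    simp [gg, dd, Matrix.mul_apply, Fin.sum_univ_three, hr, hr', hz, om_norm, om_conj'] <;> ring

end Pool.Agent.Helper88.P3
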