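import Pool.Agent.Helper53.DV.PBU1
import Pool.Agent.Helper53.DV.PBU2
import Pool.Agent.Helper53.DV.PBU3
import Pool.Agent.Helper53.DV.PBU4
import Pool.Agent.Helper88.P3.Mat

/-!
A continuous map from the unit ball of `ℂ²` to `ℂ²` which is equivariant, on the unit sphere, for the
multiplications by a primitive cube root of unity and by a nontrivial cube root of unity, has a zero.
-/

set_option autoImplicit false

namespace Pool.Agent.Helper88.P3

open Complex

theorem bu4 : DV.StBU4 := DV.pBU4 (DV.pBU3 DV.pBU1 DV.pBU2)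

/-- Powers of `om` with exponent in `ZMod 3`. -/
noncomputable def ee (k : ZMod 3) : ℂ := om ^ k.val

theorem ee_add (k l : ZMod 3) : ee (k + l) = ee k * ee l := by
  unfold ee
  rw [ZMod.val_add, ← pow_eq_pow_mod _ om_cube, pow_add]

theorem ee_zero : ee 0 = 1 := by simp [ee]

theorem ee_neg (k : ZMod 3) : ee (-k) * ee k = 1 := by
  rw [← ee_add, neg_add_cancel, ee_zero]

theorem ee_norm (k : ZMod 3) : ‖ee k‖ = 1 := by
  rw [ee, norm_pow, om_norm, one_pow]

theorem ee_cube (k : ZMod 3) : ee k ^ 3 = 1 := by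
  rw [ee, ← pow_mul, mul_comm, pow_mul, om_cube, one_pow]

/-- A point of the plane for a point of the join. -/
noncomputable def vv (s t : ℝ) (k l : ZMod 3) : ℂ := s * ee k + t * I * ee l

theorem vv_shift (s t : ℝ) (k l g : ZMod 3) : vv s t (k + g) (l + g) = ee g * vv s t k l := by
  unfold vv
  rw [ee_add, ee_add]
  ring

theorem vv_zero {s t : ℝ} (hs : 0 ≤ s) (ht : 0 ≤ t) {k l : ZMod 3} (h : vv s t k l = 0) :
    s = 0 ∧ t = 0 := by
  unfold vv at h
  have h1 : (s : ℂ) * ee k = -(t * I * ee l) := by linear_combination h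
  have h2 : s = t := by
    have := congrArg norm h1
    rw [norm_neg, norm_mul, norm_mul, norm_mul, ee_norm, ee_norm, norm_I, norm_real, norm_real,
      Real.norm_of_nonneg hs, Real.norm_of_nonneg ht] at this
    simpa using this
  have h3 : (s : ℂ) ^ 3 = t ^ 3 * I := by
    have h5 : ((s : ℂ) * ee k) ^ 3 = (-(t * I * ee l)) ^ 3 := by rw [h1]
    have hI : I ^ 3 = -I := by
      rw [pow_succ, I_sq]; ring
    have e1 : ((s : ℂ) * ee k) ^ 3 = s ^ 3 := by rw [mul_pow, ee_cube, mul_one]
    have e2 : (-(t * I * ee l)) ^ 3 = t ^ 3 * I := by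
      have : (-(t * I * ee l)) ^ 3 = -(t ^ 3 * I ^ 3 * ee l ^ 3) := by ring
      rw [this, hI, ee_cube]
      ring
    rw [← e1, h5, e2]
  have h4 := congrArg Complex.re h3
  have h5 : s ^ 3 = 0 := by
    have e1 : ((s : ℂ) ^ 3).re = s ^ 3 := by
      rw [← ofReal_pow, ofReal_re]
    have e2 : ((t : ℂ) ^ 3 * I).re = 0 := by
      rw [← ofReal_pow, mul_re, ofReal_im, I_re]
      ring
    rw [e1, e2] at h4
    exact h4
  have h6 : s = 0 := by
    exact pow_eq_zero_iff (by norm_num) |>.1 h5
  exact ⟨h6, h2 ▸ h6⟩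

/-- The square of the norm. -/
noncomputable def n2 (z : ℂ × ℂ) : ℝ := ‖z.1‖ ^ 2 + ‖z.2‖ ^ 2

theorem n2_nonneg (z : ℂ × ℂ) : 0 ≤ n2 z := by unfold n2; positivity

/-- The vector of a point of the join. -/
noncomputable def ww (t : Fin 5 → ℝ) (n : Fin 5 → ZMod 3) : ℂ × ℂ :=
  (vv (t 0) (t 1) (n 0) (n 1), vv (t 2) (t 3) (n 2) (n 3))

/-- The denominator. -/
noncomputable def qq (t : Fin 5 → ℝ) (n : Fin 5 → ZMod 3) : ℝ := Real.sqrt (n2 (ww t n)) + t 4

theorem qq_pos {t : Fin 5 → ℝ} (ht : t ∈ stdSimplex ℝ (Fin 5)) (n : Fin 5 → ZMod 3) : 0 < qq t n := by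
  have h4 := ht.1 4
  have hs := Real.sqrt_nonneg (n2 (ww t n))
  rcases lt_or_eq_of_le h4 with h | h
  · unfold qq; linarith
  rcases lt_or_eq_of_le hs with h' | h'
  · unfold qq; linarith
  exfalso
  have h0 : n2 (ww t n) = 0 := (Real.sqrt_eq_zero (n2_nonneg _)).1 h'.symm
  unfold n2 at h0
  have h1 : ‖(ww t n).1‖ ^ 2 = 0 := by nlinarith [sq_nonneg ‖(ww t n).1‖, sq_nonneg ‖(ww t n).2‖]
  have h2 : ‖(ww t n).2‖ ^ 2 = 0 := by nlinarith [sq_nonneg ‖(ww t n).1‖, sq_nonneg ‖(ww t n).2‖]
  have h1' : (ww t n).1 = 0 := norm_eq_zero.1 (pow_eq_zero_iff (by norm_num) |>.1 h1)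
  have h2' : (ww t n).2 = 0 := norm_eq_zero.1 (pow_eq_zero_iff (by norm_num) |>.1 h2)
  obtain ⟨a0, a1⟩ := vv_zero (ht.1 0) (ht.1 1) h1'
  obtain ⟨a2, a3⟩ := vv_zero (ht.1 2) (ht.1 3) h2'
  have := ht.2
  rw [Fin.sum_univ_five, a0, a1, a2, a3, ← h] at this
  norm_num at this

/-- The point of the ball, turned back by the last coordinate. -/
noncomputable def bb (t : Fin 5 → ℝ) (n : Fin 5 → ZMod 3) : ℂ × ℂ :=
  (ee (-(n 4)) * ((ww t n).1 / qq t n), ee (-(n 4)) * ((ww t n).2 / qq t n))

theorem n2_bb {t : Fin 5 → ℝ} (ht : t ∈ stdSimplex ℝ (Fin 5)) (n : Fin 5 → ZMod 3) :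
    n2 (bb t n) = n2 (ww t n) / qq t n ^ 2 := by
  have hq := qq_pos ht n
  unfold bb
  unfold n2
  simp only [norm_mul, ee_norm, one_mul, norm_div, norm_real, Real.norm_of_nonneg hq.le]
  field_simp

theorem n2_bb_le {t : Fin 5 → ℝ} (ht : t ∈ stdSimplex ℝ (Fin 5)) (n : Fin 5 → ZMod 3) :
    n2 (bb t n) ≤ 1 := by
  rw [n2_bb ht, div_le_one (by have := qq_pos ht n; positivity)]
  have h1 : Real.sqrt (n2 (ww t n)) ^ 2 = n2 (ww t n) := Real.sq_sqrt (n2_nonneg _)
  have h4 := ht.1 4
  have hs := Real.sqrt_nonneg (n2 (ww t n))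
  unfold qq
  nlinarith

theorem n2_bb_eq {t : Fin 5 → ℝ} (ht : t ∈ stdSimplex ℝ (Fin 5)) (n : Fin 5 → ZMod 3) (h4 : t 4 = 0) :
    n2 (bb t n) = 1 := by
  have hq := qq_pos ht n
  rw [n2_bb ht, div_eq_one_iff_eq (by positivity)]
  have h1 : Real.sqrt (n2 (ww t n)) ^ 2 = n2 (ww t n) := Real.sq_sqrt (n2_nonneg _)
  unfold qq
  rw [h4, add_zero, h1]

theorem rot_pow {G : ℂ × ℂ → Fin 2 → ℂ} {c : ℂ}
    (hrot : ∀ z, n2 z = 1 → ∀ a, G (om * z.1, om * z.2) a = c * G z a) (k : ℕ) (z : ℂ × ℂ)
    (hz : n2 z = 1) (a : Fin 2) : G (om ^ k * z.1, om ^ k * z.2) a = c ^ k * G z a := by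
  induction k with
  | zero => simp
  | succ k ih =>
    have h1 : n2 (om ^ k * z.1, om ^ k * z.2) = 1 := by
      unfold n2 at hz ⊢
      simp only [norm_mul, norm_pow, om_norm, one_pow, one_mul]
      exact hz
    have h2 := hrot _ h1 a
    simp only at h2
    rw [pow_succ', mul_assoc, mul_assoc, h2, ih, pow_succ', mul_assoc]

theorem dold {G : ℂ × ℂ → Fin 2 → ℂ} (hG : Continuous G) {c : ℂ} (hc : c ^ 3 = 1) (hc1 : c ≠ 1)
    (hrot : ∀ z, n2 z = 1 → ∀ a, G (om * z.1, om * z.2) a = c * G z a) :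
    ∃ z, n2 z ≤ 1 ∧ ∀ a, G z a = 0 := by
  have : Fact (Nat.Prime 3) := ⟨Nat.prime_three⟩
  have key : ∀ a n, ContinuousOn (fun t => (c ^ (n 4).val * G (bb t n) a).re) (stdSimplex ℝ (Fin 5)) := by
    intro a n
    have hw : Continuous fun t : Fin 5 → ℝ => ww t n := by
      unfold ww vv
      fun_prop
    have hn2 : Continuous n2 := by
      unfold n2
      fun_prop
    have hq : Continuous fun t : Fin 5 → ℝ => qq t n := by
      unfold qq
      have := hn2.comp hw
      fun_prop
    have hqc : Continuous fun t : Fin 5 → ℝ => (qq t n : ℂ) := by fun_prop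
    have hne : ∀ t ∈ stdSimplex ℝ (Fin 5), (qq t n : ℂ) ≠ 0 := fun t ht => by
      exact_mod_cast (qq_pos ht n).ne'
    have hb : ContinuousOn (fun t => bb t n) (stdSimplex ℝ (Fin 5)) := by
      unfold bb
      apply ContinuousOn.prodMk
      · exact continuousOn_const.mul ((continuous_fst.comp hw).continuousOn.div hqc.continuousOn hne)
      · exact continuousOn_const.mul ((continuous_snd.comp hw).continuousOn.div hqc.continuousOn hne)
    have hGa : Continuous fun z => G z a := (continuous_apply a).comp hG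
    exact Complex.continuous_re.comp_continuousOn
      (continuousOn_const.mul (hGa.comp_continuousOn hb))
  have key2 : ∀ (a : Fin 2) (t : Fin 5 → ℝ) (n n' : Fin 5 → ZMod 3), t ∈ stdSimplex ℝ (Fin 5) →
      (∀ j, t j ≠ 0 → n j = n' j) →
      (c ^ (n 4).val * G (bb t n) a).re = (c ^ (n' 4).val * G (bb t n') a).re := by
    intro a t n n' ht h
    have hv : ∀ i j : Fin 5, vv (t i) (t j) (n i) (n j) = vv (t i) (t j) (n' i) (n' j) := by
      intro i j
      unfold vv
      have e1 : (t i : ℂ) * ee (n i) = t i * ee (n' i) := by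
        by_cases h0 : t i = 0
        · rw [h0]; simp
        · rw [h i h0]
      have e2 : (t j : ℂ) * I * ee (n j) = t j * I * ee (n' j) := by
        by_cases h0 : t j = 0
        · rw [h0]; simp
        · rw [h j h0]
      rw [e1, e2]
    have hw : ww t n = ww t n' := by
      unfold ww
      rw [hv, hv]
    by_cases h4 : t 4 = 0
    · have key : ∀ n : Fin 5 → ZMod 3, c ^ (n 4).val * G (bb t n) a =
          G ((ww t n).1 / qq t n, (ww t n).2 / qq t n) a := by
        intro n
        have hb := n2_bb_eq ht n h4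
        have := rot_pow hrot (n 4).val (bb t n) hb a
        rw [← this]
        congr 2
        · show ee (n 4) * (ee (-(n 4)) * ((ww t n).1 / qq t n)) = _
          rw [← mul_assoc, mul_comm (ee (n 4)), ee_neg, one_mul]
        · show ee (n 4) * (ee (-(n 4)) * ((ww t n).2 / qq t n)) = _
          rw [← mul_assoc, mul_comm (ee (n 4)), ee_neg, one_mul]
      show (c ^ (n 4).val * G (bb t n) a).re = (c ^ (n' 4).val * G (bb t n') a).re
      rw [key, key]
      unfold qq
      rw [hw]
    · have : n 4 = n' 4 := h 4 h4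
      show (c ^ (n 4).val * G (bb t n) a).re = (c ^ (n' 4).val * G (bb t n') a).re
      have hb : bb t n = bb t n' := by
        unfold bb qq
        rw [this, hw]
      rw [hb, this]
  obtain ⟨t, ht, n, hn⟩ := bu4 3 2 5 (by norm_num)
    (fun a t n => (c ^ (n 4).val * G (bb t n) a).re) key key2
  · refine ⟨bb t n, n2_bb_le ht n, fun a => ?_⟩
    have hsh : ∀ g : ZMod 3, bb t (fun j => n j + g) = bb t n := by
      intro g
      have e1 : ww t (fun j => n j + g) = (ee g * (ww t n).1, ee g * (ww t n).2) := by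
        unfold ww
        simp only [vv_shift]
      have e2 : qq t (fun j => n j + g) = qq t n := by
        unfold qq
        rw [e1]
        unfold n2
        simp only [norm_mul, ee_norm, one_mul]
      unfold bb
      rw [e1, e2]
      have e3 : ee (-(n 4 + g)) * ee g = ee (-(n 4)) := by
        rw [← ee_add]
        congr 1
        ring
      ext1
      · show ee (-(n 4 + g)) * (ee g * (ww t n).1 / qq t n) = _
        rw [← e3]; ring
      · show ee (-(n 4 + g)) * (ee g * (ww t n).2 / qq t n) = _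
        rw [← e3]; ring
    set H : ℂ := c ^ (n 4).val * G (bb t n) a with hH
    have hcg : ∀ g : ZMod 3, (c ^ g.val * H).re = H.re := by
      intro g
      have := hn a g
      simp only [hsh] at this
      rw [ZMod.val_add, ← pow_eq_pow_mod _ hc, pow_add] at this
      rw [← this, hH]
      congr 1
      ring
    have h1 := hcg 1
    have h2 := hcg 2
    have v1 : (1 : ZMod 3).val = 1 := rfl
    have v2 : (2 : ZMod 3).val = 2 := rfl
    rw [v1, pow_one] at h1
    rw [v2] at h2
    have hs : 1 + c + c ^ 2 = 0 := by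
      have : (c - 1) * (1 + c + c ^ 2) = 0 := by linear_combination hc
      rcases mul_eq_zero.1 this with h | h
      · exact absurd (by linear_combination h) hc1
      · exact h
    have h0 : H.re = 0 := by
      have e : H + c * H + c ^ 2 * H = 0 := by linear_combination H * hs
      have := congrArg Complex.re e
      rw [add_re, add_re, h1, h2, zero_re] at this
      linarith
    have hcim : c.im ≠ 0 := by
      intro him
      have hre : c = (c.re : ℂ) := by
        apply Complex.ext <;> simp [him]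
      rw [hre] at hs
      have : 1 + c.re + c.re ^ 2 = 0 := by exact_mod_cast hs
      nlinarith [sq_nonneg (c.re + 1 / 2)]
    have h3 : H = 0 := by
      apply Complex.ext
      · exact h0
      · have : c.re * H.re - c.im * H.im = 0 := by
          rw [← mul_re, h1, h0]
        rw [h0, mul_zero, zero_sub, neg_eq_zero] at this
        exact (mul_eq_zero.1 this).resolve_left hcim
    have hc0 : c ≠ 0 := by
      intro h
      rw [h] at hc
      norm_num at hc
    exact (mul_eq_zero.1 h3).resolve_left (pow_ne_zero _ hc0)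

end Pool.Agent.Helper88.P3
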