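import Pool.Agent.Helper88.P3.Dold

/-!
A continuous family of 3 by 3 matrices over the unit ball of `ℂ²`. On the unit sphere it is equivariant
for the multiplication by a cube root of unity; outside of the ball of radius `1/2` the cubes of
the matrices are one; in the ball of radius `1/2` the family factors through a smooth family with
three real parameters. It follows that an equivariant function on the matrices with cube one,
with values in `ℂ²`, has a zero.
-/

set_option autoImplicit false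

namespace Pool.Agent.Helper88.P3

open Complex Matrix

/-- 3 by 3 complex matrices. -/
abbrev Mt : Type := Matrix (Fin 3) (Fin 3) ℂ

/-- `1 ⊕ k(u)` for the quaternion `u`. -/
noncomputable def hh (u : ℂ × ℂ) : Mt :=
  !![1, 0, 0; 0, u.1, -(starRingEnd ℂ) u.2; 0, u.2, (starRingEnd ℂ) u.1]

/-- The adjoint of `hh u`. -/
noncomputable def hs (u : ℂ × ℂ) : Mt :=
  !![1, 0, 0; 0, (starRingEnd ℂ) u.1, (starRingEnd ℂ) u.2; 0, -u.2, u.1]

/-- Lower unipotent matrices. -/
noncomputable def lo (s : ℂ) : Mt := !![1, 0, 0; s, 1, 0; s, -om * s, 1]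

/-- Their inverses. -/
noncomputable def li (s : ℂ) : Mt := !![1, 0, 0; -s, 1, 0; -s - om * s ^ 2, om * s, 1]

/-- Upper triangular matrices. -/
noncomputable def up (s : ℂ) : Mt := !![1, -om * s, s; 0, om, -s; 0, 0, om ^ 2]

/-- `diag (0, 1, 1)`. -/
noncomputable def pe : Mt := !![0, 0, 0; 0, 1, 0; 0, 0, 1]

/-- The parameter `τ`. -/
noncomputable def ta (z : ℂ × ℂ) : ℝ := max 0 (2 * Real.sqrt (n2 z) - 1)

/-- The denominator. -/
noncomputable def mx (z : ℂ × ℂ) : ℝ := max (Real.sqrt (n2 z)) (1 / 2)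

/-- The rescaled vector. -/
noncomputable def uu (z : ℂ × ℂ) : ℂ × ℂ := (z.1 / mx z, z.2 / mx z)

/-- The family. -/
noncomputable def xx (z : ℂ × ℂ) : Mt :=
  hh (uu z) * (lo (ta z) * up (ta z) * li (ta z)) * hs (uu z) +
    (-((1 - n2 (uu z) : ℝ) : ℂ) / 2) • pe

/-- The smooth family with three real parameters. -/
noncomputable def lm (v : ℝ × ℂ) : Mt :=
  !![1, 0, 0;
     0, -1 / 2 + (om - om ^ 2) / 2 * v.1, (om - om ^ 2) * v.2;
     0, (om - om ^ 2) * (starRingEnd ℂ) v.2, -1 / 2 - (om - om ^ 2) / 2 * v.1]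

theorem om_sum : 1 + om + om ^ 2 = 0 := by
  have h1 : (om - 1) * (1 + om + om ^ 2) = 0 := by linear_combination om_cube
  rcases mul_eq_zero.1 h1 with h | h
  · exact absurd (by linear_combination h) (om_prim.ne_one (by norm_num))
  · exact h

theorem lo_li (s : ℂ) : lo s * li s = 1 := by
  ext i j
  fin_cases i <;> fin_cases j <;>
    simp [lo, li, Matrix.mul_apply, Fin.sum_univ_three] <;> ring

theorem li_lo (s : ℂ) : li s * lo s = 1 := by
  ext i j
  fin_cases i <;> fin_cases j <;>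
    simp [lo, li, Matrix.mul_apply, Fin.sum_univ_three] <;> ring

theorem up_cube (s : ℂ) : up s ^ 3 = 1 := by
  have h3 := om_cube
  have h1 := om_sum
  ext i j
  fin_cases i <;> fin_cases j <;>
    simp [up, pow_succ, Matrix.mul_apply, Fin.sum_univ_three] <;>
    first | ring1 | grind

theorem clock_one : lo 1 * up 1 * li 1 = pp := by
  have h3 := om_cube
  have h1 := om_sum
  ext i j
  fin_cases i <;> fin_cases j <;>
    simp [up, lo, li, pp, Matrix.mul_apply, Fin.sum_univ_three] <;>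
    first | ring1 | grind

theorem clock_zero : lo 0 * up 0 * li 0 = dd := by
  ext i j
  fin_cases i <;> fin_cases j <;>
    simp [up, lo, li, dd, Matrix.mul_apply, Fin.sum_univ_three]

theorem mul_conj' (z : ℂ) : z * (starRingEnd ℂ) z = ((‖z‖ ^ 2 : ℝ) : ℂ) := by
  rw [mul_conj, normSq_eq_norm_sq]

theorem hh_hs {u : ℂ × ℂ} (hu : n2 u = 1) : hh u * hs u = 1 := by
  have h1 : u.1 * (starRingEnd ℂ) u.1 + u.2 * (starRingEnd ℂ) u.2 = 1 := by
    rw [mul_conj', mul_conj', ← ofReal_add]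
    unfold n2 at hu
    rw [hu]
    simp
  ext i j
  fin_cases i <;> fin_cases j <;>
    simp [hh, hs, Matrix.mul_apply, Fin.sum_univ_three] <;>
    first | ring1 | linear_combination h1

theorem hs_hh {u : ℂ × ℂ} (hu : n2 u = 1) : hs u * hh u = 1 :=
  mul_eq_one_comm.1 (hh_hs hu)

theorem conj_cube {h s l i t : Mt} (h1 : h * s = 1) (h2 : l * i = 1) (h3 : t ^ 3 = 1) :
    (h * (l * t * i) * s) ^ 3 = 1 := by
  have h1' : s * h = 1 := mul_eq_one_comm.1 h1
  have h2' : i * l = 1 := mul_eq_one_comm.1 h2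
  calc (h * (l * t * i) * s) ^ 3
      = h * (l * (t * ((i * ((s * h) * l)) * (t * ((i * ((s * h) * l)) * (t * i)))))) * s := by
        rw [pow_succ, pow_succ, pow_one]
        simp only [mul_assoc]
    _ = h * (l * ((t ^ 3) * i)) * s := by
        rw [h1', one_mul, h2', one_mul, one_mul]
        simp only [pow_succ, pow_zero, one_mul, mul_assoc]
    _ = 1 := by rw [h3, one_mul, h2, mul_one, h1]

theorem mx_pos (z : ℂ × ℂ) : 0 < mx z := lt_of_lt_of_le (by norm_num) (le_max_right _ _)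

theorem n2_uu (z : ℂ × ℂ) : n2 (uu z) = n2 z / mx z ^ 2 := by
  have hq := mx_pos z
  unfold uu
  unfold n2
  simp only [norm_div, norm_real, Real.norm_of_nonneg hq.le]
  field_simp

theorem n2_uu_one {z : ℂ × ℂ} (hz : 1 / 4 ≤ n2 z) : n2 (uu z) = 1 := by
  have h2 : 1 / 2 ≤ Real.sqrt (n2 z) := by
    rw [show (1 / 2 : ℝ) = Real.sqrt (1 / 4) by
      rw [show (1 / 4 : ℝ) = (1 / 2) ^ 2 by norm_num, Real.sqrt_sq (by norm_num)]]
    exact Real.sqrt_le_sqrt hz
  have h3 : mx z = Real.sqrt (n2 z) := max_eq_left h2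
  rw [n2_uu, h3, Real.sq_sqrt (n2_nonneg z)]
  exact div_self (by linarith)

/-- Outside of the small ball the cubes are one. -/
theorem xx_cube {z : ℂ × ℂ} (hz : 1 / 4 ≤ n2 z) : xx z ^ 3 = 1 := by
  have h := n2_uu_one hz
  unfold xx
  rw [h]
  simp only [sub_self, ofReal_zero, neg_zero, zero_div, zero_smul, add_zero]
  exact conj_cube (hh_hs h) (lo_li _) (up_cube _)

theorem hh_rot (z : ℂ × ℂ) : hh (om * z.1, om * z.2) = hh z * dd := by
  ext i j
  fin_cases i <;> fin_cases j <;>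
    simp [hh, dd, Matrix.mul_apply, Fin.sum_univ_three, om_conj'] <;> ring

theorem hs_rot (z : ℂ × ℂ) : hs (om * z.1, om * z.2) = dd ^ 2 * hs z := by
  have h3 := om_cube
  ext i j
  fin_cases i <;> fin_cases j <;>
    simp [hs, dd, pow_two, Matrix.mul_apply, Fin.sum_univ_three, om_conj'] <;>
    first | ring1 | grind

theorem xx_sphere {z : ℂ × ℂ} (hz : n2 z = 1) : xx z = hh z * pp * hs z := by
  have h1 : Real.sqrt (n2 z) = 1 := by rw [hz, Real.sqrt_one]
  have h2 : mx z = 1 := by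
    unfold mx
    rw [h1]
    norm_num
  have h3 : uu z = z := by
    unfold uu
    rw [h2]
    simp
  have h4 : ta z = 1 := by
    unfold ta
    rw [h1]
    norm_num
  unfold xx
  rw [h3, h4, hz]
  simp only [ofReal_one, clock_one, sub_self, ofReal_zero, neg_zero, zero_div, zero_smul, add_zero]

theorem xx_rot {z : ℂ × ℂ} (hz : n2 z = 1) : xx (om * z.1, om * z.2) = om • xx z := by
  have hz' : n2 (om * z.1, om * z.2) = 1 := by
    unfold n2 at hz ⊢
    simp only [norm_mul, om_norm, one_mul]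
    exact hz
  have hd : dd ^ 3 = 1 := by
    have h3 := om_cube
    ext i j
    fin_cases i <;> fin_cases j <;>
      simp [dd, pow_succ, Matrix.mul_apply, Fin.sum_univ_three] <;>
      first | ring1 | grind
  rw [xx_sphere hz, xx_sphere hz', hh_rot, hs_rot]
  calc hh z * dd * pp * (dd ^ 2 * hs z) = hh z * (dd * pp) * (dd ^ 2 * hs z) := by
        simp only [mul_assoc]
    _ = hh z * (om • (pp * dd)) * (dd ^ 2 * hs z) := by rw [clock_shift]
    _ = om • (hh z * (pp * (dd ^ 3 * hs z))) := by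
        simp only [mul_smul_comm, smul_mul_assoc, mul_assoc, pow_succ, pow_zero, one_mul]
    _ = om • (hh z * pp * hs z) := by rw [hd, one_mul, mul_assoc]

/-- In the small ball the family factors through `lm`. -/
theorem xx_inner {z : ℂ × ℂ} (hz : n2 z ≤ 1 / 4) :
    xx z = lm (‖(uu z).1‖ ^ 2 - ‖(uu z).2‖ ^ 2, (uu z).1 * (starRingEnd ℂ) (uu z).2) := by
  have h2 : Real.sqrt (n2 z) ≤ 1 / 2 := by
    rw [show (1 / 2 : ℝ) = Real.sqrt (1 / 4) by
      rw [show (1 / 4 : ℝ) = (1 / 2) ^ 2 by norm_num, Real.sqrt_sq (by norm_num)]]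
    exact Real.sqrt_le_sqrt hz
  have h4 : ta z = 0 := max_eq_left (by linarith)
  unfold xx
  rw [h4, ofReal_zero, clock_zero]
  set u := uu z with hu
  have e1 : u.1 * (starRingEnd ℂ) u.1 = (‖u.1‖ : ℂ) ^ 2 := by rw [mul_conj', ofReal_pow]
  have e2 : u.2 * (starRingEnd ℂ) u.2 = (‖u.2‖ : ℂ) ^ 2 := by rw [mul_conj', ofReal_pow]
  have h1 := om_sum
  clear_value u
  ext i j
  fin_cases i <;> fin_cases j <;>
    simp [hh, hs, dd, lm, pe, n2, Matrix.mul_apply, Fin.sum_univ_three] <;>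
    first
    | ring1
    | linear_combination om * e1 + om ^ 2 * e2 + ((‖u.1‖ : ℂ) ^ 2 + (‖u.2‖ : ℂ) ^ 2) / 2 * h1
    | linear_combination om * e2 + om ^ 2 * e1 + ((‖u.1‖ : ℂ) ^ 2 + (‖u.2‖ : ℂ) ^ 2) / 2 * h1

end Pool.Agent.Helper88.P3
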