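import Pool.Agent.Helper88.P3.Top

/-!
Homomorphisms of a free product `A * B` to `PGL(3, ℂ)` which extend a given one on `A` and kill the
cube of an element not in the kernel of `(1, φ) : A * B → ℤ/3`.
-/

set_option autoImplicit false

namespace Pool.Agent.Helper88.P3

open Complex Matrix

universe u v

/-- The general linear group of degree three. -/
abbrev GL3 : Type := (Matrix (Fin 3) (Fin 3) ℂ)ˣ

/-- The projective general linear group of degree three. -/
abbrev PGL3 : Type := GL3 ⧸ Subgroup.center GL3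

/-- A matrix with cube one as a unit. -/
def ux (x : Mt) (h : x ^ 3 = 1) : GL3 where
  val := x
  inv := x ^ 2
  val_inv := by rw [← pow_succ', h]
  inv_val := by rw [← pow_succ, h]

theorem ux_cube (x : Mt) (h : x ^ 3 = 1) : ux x h ^ 3 = 1 := by
  apply Units.ext
  rw [Units.val_pow_eq_pow_val]
  exact h

/-- The homomorphism of the group of order three given by such a matrix. -/
def px (x : Mt) (h : x ^ 3 = 1) : Multiplicative (ZMod 3) →* GL3 where
  toFun k := ux x h ^ (Multiplicative.toAdd k).val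
  map_one' := by simp
  map_mul' k l := by
    rw [toAdd_mul, ZMod.val_add, ← pow_eq_pow_mod _ (ux_cube x h), pow_add]

/-- The cube roots of unity. -/
noncomputable def ch : Multiplicative (ZMod 3) →* ℂ where
  toFun k := om ^ (Multiplicative.toAdd k).val
  map_one' := by simp
  map_mul' k l := by
    rw [toAdd_mul, ZMod.val_add, ← pow_eq_pow_mod _ om_cube, pow_add]

theorem ch_cube (k : Multiplicative (ZMod 3)) : ch k ^ 3 = 1 := by
  show (om ^ (Multiplicative.toAdd k).val) ^ 3 = 1
  rw [← pow_mul, mul_comm, pow_mul, om_cube, one_pow]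

theorem ch_ne {k : Multiplicative (ZMod 3)} (hk : k ≠ 1) : ch k ≠ 1 := by
  intro h
  apply hk
  have h1 : (Multiplicative.toAdd k).val = 0 := by
    by_contra hne
    exact om_prim.pow_ne_one_of_pos_of_lt hne (ZMod.val_lt _) h
  have h2 : Multiplicative.toAdd k = 0 := (ZMod.val_eq_zero _).1 h1
  exact h2

theorem ch_conj (k : Multiplicative (ZMod 3)) : ch k * (starRingEnd ℂ) (ch k) = 1 := by
  have : ‖ch k‖ = 1 := by
    show ‖om ^ (Multiplicative.toAdd k).val‖ = 1
    rw [norm_pow, om_norm, one_pow]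
  rw [mul_conj, normSq_eq_norm_sq, this]
  norm_num

section

variable {A : Type u} {B : Type v} [Group A] [Group B]

/-- The homomorphism given by a matrix `x` with cube one. -/
noncomputable def psi (ρ : A →* PGL3) (φ : B →* Multiplicative (ZMod 3)) (x : Mt) (h : x ^ 3 = 1) :
    Monoid.Coprod A B →* PGL3 :=
  Monoid.Coprod.lift ρ ((QuotientGroup.mk' (Subgroup.center GL3)).comp ((px x h).comp φ))

/-- The entries are smooth along the family `lm`. -/
def Sm (W : Mt → Mt) : Prop := ∀ i j, ContDiff ℝ 1 fun v => W (lm v) i j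

theorem sm_const (m : Mt) : Sm fun _ => m := fun _ _ => contDiff_const

theorem sm_mul {W V : Mt → Mt} (hW : Sm W) (hV : Sm V) : Sm fun x => W x * V x := by
  intro i j
  simp only [Matrix.mul_apply]
  exact ContDiff.sum fun k _ => (hW i k).mul (hV k j)

theorem sm_id : Sm fun x => x := by
  intro i j
  have h1 : ContDiff ℝ 1 fun v : ℝ × ℂ => (v.1 : ℂ) := ofRealCLM.contDiff.comp contDiff_fst
  have h2 : ContDiff ℝ 1 fun v : ℝ × ℂ => v.2 := contDiff_snd
  have h3 : ContDiff ℝ 1 fun v : ℝ × ℂ => (starRingEnd ℂ) v.2 :=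
    conjCLE.contDiff.comp contDiff_snd
  fin_cases i <;> fin_cases j <;> simp [lm] <;>
    first
    | exact contDiff_const
    | exact contDiff_const.add (contDiff_const.mul h1)
    | exact contDiff_const.mul h2
    | exact contDiff_const.mul h3
    | exact contDiff_const.sub (contDiff_const.mul h1)

theorem sm_pow (k : ℕ) : Sm fun x => x ^ k := by
  induction k with
  | zero => simpa using sm_const 1
  | succ k ih =>
    simp only [pow_succ]
    exact sm_mul ih sm_id

/-- Polynomial lifts. -/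
theorem exists_lift (ρ : A →* PGL3) (φ : B →* Multiplicative (ZMod 3)) (r : Monoid.Coprod A B) :
    ∃ W V : Mt → Mt, Continuous W ∧ Continuous V ∧ Sm W ∧ Sm V ∧
      (∀ x, W (om • x) = ch (Monoid.Coprod.lift (1 : A →* Multiplicative (ZMod 3)) φ r) • W x) ∧
      (∀ x, ch (Monoid.Coprod.lift (1 : A →* Multiplicative (ZMod 3)) φ r) • V (om • x) = V x) ∧
      ∀ x (h : x ^ 3 = 1), ∃ g : GL3, (g : Mt) = W x ∧ ((g⁻¹ : GL3) : Mt) = V x ∧
        (QuotientGroup.mk g : PGL3) = psi ρ φ x h r := by
  induction r using Monoid.Coprod.induction_on with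
  | inl a =>
    obtain ⟨m, hm⟩ := QuotientGroup.mk_surjective (ρ a)
    refine ⟨fun _ => (m : Mt), fun _ => ((m⁻¹ : GL3) : Mt), continuous_const, continuous_const,
      sm_const _, sm_const _, fun x => ?_, fun x => ?_, fun x h => ⟨m, rfl, rfl, ?_⟩⟩
    · rw [Monoid.Coprod.lift_apply_inl, MonoidHom.one_apply, map_one, one_smul]
    · rw [Monoid.Coprod.lift_apply_inl, MonoidHom.one_apply, map_one, one_smul]
    · rw [hm, psi, Monoid.Coprod.lift_apply_inl]
  | inr b =>
    set k := (Multiplicative.toAdd (φ b)).val with hk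
    have hch : ch (φ b) = om ^ k := rfl
    refine ⟨fun x => x ^ k, fun x => (x ^ 2) ^ k, continuous_pow k, (continuous_pow 2).pow k,
      sm_pow k, ?_, fun x => ?_, fun x => ?_, fun x h => ⟨ux x h ^ k, ?_, ?_, ?_⟩⟩
    · simp only [← pow_mul]
      exact sm_pow _
    · rw [Monoid.Coprod.lift_apply_inr, hch]
      exact smul_pow om x k
    · rw [Monoid.Coprod.lift_apply_inr, hch]
      show om ^ k • ((om • x) ^ 2) ^ k = (x ^ 2) ^ k
      rw [smul_pow, smul_pow, smul_smul, ← mul_pow, ← pow_succ', om_cube, one_pow, one_smul]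
    · rw [Units.val_pow_eq_pow_val]
      rfl
    · rw [← inv_pow, Units.val_pow_eq_pow_val]
      rfl
    · rw [psi, Monoid.Coprod.lift_apply_inr]
      rfl
  | mul y z hy hz =>
    obtain ⟨W, V, h1, h2, h3, h4, h5, h6, h7⟩ := hy
    obtain ⟨W', V', h1', h2', h3', h4', h5', h6', h7'⟩ := hz
    refine ⟨fun x => W x * W' x, fun x => V' x * V x, h1.mul h1', h2'.mul h2, sm_mul h3 h3',
      sm_mul h4' h4, fun x => ?_, fun x => ?_, fun x h => ?_⟩
    · show W (om • x) * W' (om • x) = _
      rw [h5, h5', map_mul, map_mul, smul_mul_smul_comm]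
    · show _ • (V' (om • x) * V (om • x)) = V' x * V x
      rw [map_mul, map_mul, mul_comm (ch _), ← smul_mul_smul_comm, h6, h6']
    · obtain ⟨g, e1, e2, e3⟩ := h7 x h
      obtain ⟨g', e1', e2', e3'⟩ := h7' x h
      refine ⟨g * g', ?_, ?_, ?_⟩
      · rw [Units.val_mul, e1, e1']
      · rw [_root_.mul_inv_rev, Units.val_mul, e2, e2']
      · rw [QuotientGroup.mk_mul, e3, e3', map_mul]

/-- A matrix such that it and its inverse have trace zero has a central cube. -/
theorem cube_center (g : GL3) (h1 : (g : Mt).trace = 0) (h2 : ((g⁻¹ : GL3) : Mt).trace = 0) :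
    g ^ 3 ∈ Subgroup.center GL3 := by
  have h3 : adjugate (g : Mt) = (g : Mt).det • ((g⁻¹ : GL3) : Mt) := by
    have e : (g : Mt) * ((g⁻¹ : GL3) : Mt) = 1 := g.mul_inv
    calc adjugate (g : Mt) = adjugate (g : Mt) * ((g : Mt) * ((g⁻¹ : GL3) : Mt)) := by rw [e, mul_one]
      _ = (adjugate (g : Mt) * (g : Mt)) * ((g⁻¹ : GL3) : Mt) := by rw [mul_assoc]
      _ = ((g : Mt).det • (1 : Mt)) * ((g⁻¹ : GL3) : Mt) := by rw [adjugate_mul]
      _ = (g : Mt).det • ((g⁻¹ : GL3) : Mt) := by simp
  have h4 := cayley (g : Mt)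
  rw [h3, Matrix.trace_smul, h2, smul_zero, zero_smul, h1, zero_smul, sub_zero, zero_add] at h4
  rw [Subgroup.mem_center_iff]
  intro y
  apply Units.ext
  rw [Units.val_mul, Units.val_mul, Units.val_pow_eq_pow_val, h4]
  simp

/-- The main point. -/
theorem exists_kill (ρ : A →* PGL3) (φ : B →* Multiplicative (ZMod 3)) (r : Monoid.Coprod A B)
    (hr : Monoid.Coprod.lift (1 : A →* Multiplicative (ZMod 3)) φ r ≠ 1) :
    ∃ Ψ : Monoid.Coprod A B →* PGL3, (∀ a, Ψ (Monoid.Coprod.inl a) = ρ a) ∧ Ψ r ^ 3 = 1 := by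
  obtain ⟨W, V, h1, h2, h3, h4, h5, h6, h7⟩ := exists_lift ρ φ r
  set c := ch (Monoid.Coprod.lift (1 : A →* Multiplicative (ZMod 3)) φ r) with hc
  have hc3 : c ^ 3 = 1 := ch_cube _
  have hc1 : c ≠ 1 := ch_ne hr
  have hcc : c * (starRingEnd ℂ) c = 1 := ch_conj _
  obtain ⟨x, hx, h0⟩ := top_zero (f := fun x => ![(W x).trace, (starRingEnd ℂ) (V x).trace])
    (by
      refine continuous_pi fun a => ?_
      fin_cases a
      · exact h1.matrix_trace
      · exact Complex.continuous_conj.comp h2.matrix_trace) hc3 hc1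
    (by
      intro x
      have e1 : (W (om • x)).trace = c * (W x).trace := by
        rw [h5, Matrix.trace_smul, smul_eq_mul]
      have e2 : (starRingEnd ℂ) (V (om • x)).trace = c * (starRingEnd ℂ) (V x).trace := by
        have := congrArg (fun m : Mt => (starRingEnd ℂ) m.trace) (h6 x)
        simp only [Matrix.trace_smul, smul_eq_mul, map_mul] at this
        rw [← this, ← mul_assoc, hcc, one_mul]
      simp only [e1, e2]
      ext a
      fin_cases a <;> simp)
    (by
      rw [contDiff_pi]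
      intro a
      fin_cases a
      · show ContDiff ℝ 1 fun v => (W (lm v)).trace
        simp only [Matrix.trace, Matrix.diag_apply]
        exact ContDiff.sum fun i _ => h3 i i
      · show ContDiff ℝ 1 fun v => (starRingEnd ℂ) (V (lm v)).trace
        have : ContDiff ℝ 1 fun v => (V (lm v)).trace := by
          simp only [Matrix.trace, Matrix.diag_apply]
          exact ContDiff.sum fun i _ => h4 i i
        exact conjCLE.contDiff.comp this)
  have t1 : (W x).trace = 0 := by simpa using congrFun h0 0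
  have t2 : (V x).trace = 0 := by simpa using congrFun h0 1
  obtain ⟨g, e1, e2, e3⟩ := h7 x hx
  refine ⟨psi ρ φ x hx, fun a => by rw [psi, Monoid.Coprod.lift_apply_inl], ?_⟩
  rw [← e3, ← QuotientGroup.mk_pow]
  exact (QuotientGroup.eq_one_iff _).2 (cube_center g (by rw [e1, t1]) (by rw [e2, t2]))

theorem main (hA : ∀ a : A, a ≠ 1 → ∃ ρ : A →* PGL3, ρ a ≠ 1)
    (φ : B →* Multiplicative (ZMod 3)) (r : Monoid.Coprod A B)
    (hr : Monoid.Coprod.lift (1 : A →* Multiplicative (ZMod 3)) φ r ≠ 1)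
    (m : ℕ) (hm : 3 ∣ m) :
    Function.Injective
      ((QuotientGroup.mk'
          (Subgroup.normalClosure ({r ^ m} : Set (Monoid.Coprod A B)))).comp
        (Monoid.Coprod.inl : A →* Monoid.Coprod A B)) := by
  rw [injective_iff_map_eq_one]
  intro a ha
  by_contra hne
  obtain ⟨ρ, hρ⟩ := hA a hne
  obtain ⟨Ψ, hΨ, hΨr⟩ := exists_kill ρ φ r hr
  have h1 : (Monoid.Coprod.inl a : Monoid.Coprod A B) ∈ Subgroup.normalClosure {r ^ m} := by
    have := (QuotientGroup.eq_one_iff (N := Subgroup.normalClosure ({r ^ m} : Set (Monoid.Coprod A B)))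
      (Monoid.Coprod.inl a)).1 ha
    exact this
  have h2 : Subgroup.normalClosure ({r ^ m} : Set (Monoid.Coprod A B)) ≤ Ψ.ker := by
    apply Subgroup.normalClosure_le_normal
    rintro _ rfl
    show Ψ (r ^ m) = 1
    obtain ⟨k, rfl⟩ := hm
    rw [map_pow, pow_mul, hΨr, one_pow]
  exact hρ ((hΨ a).symm.trans (h2 h1))

end

end Pool.Agent.Helper88.P3
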