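import Pool.Agent.Helper88.P3.Fam

/-!
An equivariant function on the 3 by 3 matrices with cube one, with values in `ℂ²`, has a zero.
-/

set_option autoImplicit false

namespace Pool.Agent.Helper88.P3

open Complex Matrix Set

theorem continuous_n2 : Continuous n2 := by
  unfold n2
  fun_prop

theorem continuous_hh : Continuous hh := by
  refine continuous_matrix fun i j => ?_
  fin_cases i <;> fin_cases j <;> simp [hh] <;> fun_prop

theorem continuous_hs : Continuous hs := by
  refine continuous_matrix fun i j => ?_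
  fin_cases i <;> fin_cases j <;> simp [hs] <;> fun_prop

theorem continuous_lo : Continuous lo := by
  refine continuous_matrix fun i j => ?_
  fin_cases i <;> fin_cases j <;> simp [lo] <;> fun_prop

theorem continuous_li : Continuous li := by
  refine continuous_matrix fun i j => ?_
  fin_cases i <;> fin_cases j <;> simp [li] <;> fun_prop

theorem continuous_up : Continuous up := by
  refine continuous_matrix fun i j => ?_
  fin_cases i <;> fin_cases j <;> simp [up] <;> fun_prop

theorem continuous_ta : Continuous ta := by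
  unfold ta
  have := continuous_n2
  fun_prop

theorem continuous_mx : Continuous mx := by
  unfold mx
  have := continuous_n2
  fun_prop

theorem continuous_uu : Continuous uu := by
  have h1 : Continuous fun z => (mx z : ℂ) := continuous_ofReal.comp continuous_mx
  have h2 : ∀ z, (mx z : ℂ) ≠ 0 := fun z => by exact_mod_cast (mx_pos z).ne'
  exact (continuous_fst.div h1 h2).prodMk (continuous_snd.div h1 h2)

theorem continuous_xx : Continuous xx := by
  have h1 := continuous_hh.comp continuous_uu
  have h2 := continuous_hs.comp continuous_uu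
  have ht : Continuous fun z => (ta z : ℂ) := continuous_ofReal.comp continuous_ta
  have h3 := continuous_lo.comp ht
  have h4 := continuous_up.comp ht
  have h5 := continuous_li.comp ht
  have h6 : Continuous fun z => (-((1 - n2 (uu z) : ℝ) : ℂ) / 2) := by
    have := continuous_n2.comp continuous_uu
    have h7 : Continuous fun z => ((1 - n2 (uu z) : ℝ) : ℂ) :=
      continuous_ofReal.comp (continuous_const.sub this)
    fun_prop
  have h8 : Continuous fun z => (-((1 - n2 (uu z) : ℝ) : ℂ) / 2) • pe := h6.smul continuous_const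
  exact ((h1.mul ((h3.mul h4).mul h5)).mul h2).add h8

theorem ball_compact : IsCompact {z : ℂ × ℂ | n2 z ≤ 1} := by
  apply Metric.isCompact_of_isClosed_isBounded
  · exact isClosed_le continuous_n2 continuous_const
  · refine (Metric.isBounded_iff_subset_closedBall 0).2 ⟨1, fun z hz => ?_⟩
    rw [mem_closedBall_zero_iff, Prod.norm_def, max_le_iff]
    have hz' : ‖z.1‖ ^ 2 + ‖z.2‖ ^ 2 ≤ 1 := hz
    constructor
    · nlinarith [norm_nonneg z.1, norm_nonneg z.2, sq_nonneg ‖z.2‖]
    · nlinarith [norm_nonneg z.1, norm_nonneg z.2, sq_nonneg ‖z.1‖]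

/-- Approximate zeros. -/
theorem approx {f : Mt → Fin 2 → ℂ} (hf : Continuous f) {c : ℂ} (hc : c ^ 3 = 1) (hc1 : c ≠ 1)
    (hrot : ∀ x, f (om • x) = c • f x) (hd : ContDiff ℝ 1 fun v => f (lm v)) {ε : ℝ} (hε : 0 < ε) :
    ∃ z : ℂ × ℂ, n2 z ≤ 1 ∧ xx z ^ 3 = 1 ∧ ‖f (xx z)‖ ≤ ε := by
  have hdense : Dense (range fun v => f (lm v))ᶜ := by
    apply hd.dense_compl_range_of_finrank_lt_finrank
    simp [Module.finrank_pi_fintype, Complex.finrank_real_complex]
  obtain ⟨e, he, hle⟩ := hdense.exists_dist_lt 0 hε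
  rw [dist_zero_left] at hle
  obtain ⟨z, hz, h0⟩ := dold (G := fun z => f (xx z) - ((1 - ta z : ℝ) : ℂ) • e) (by
    have h1 := hf.comp continuous_xx
    have h2 : Continuous fun z => ((1 - ta z : ℝ) : ℂ) • e := by
      have := continuous_ta
      fun_prop
    exact h1.sub h2) hc hc1 (by
    intro z hz a
    have h1 : Real.sqrt (n2 z) = 1 := by rw [hz, Real.sqrt_one]
    have h4 : ta z = 1 := by
      unfold ta
      rw [h1]
      norm_num
    have hz' : n2 (om * z.1, om * z.2) = 1 := by
      unfold n2 at hz ⊢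
      simp only [norm_mul, om_norm, one_mul]
      exact hz
    have h4' : ta (om * z.1, om * z.2) = 1 := by
      unfold ta
      rw [hz', Real.sqrt_one]
      norm_num
    simp only [h4, h4', xx_rot hz, hrot, sub_self, ofReal_zero, zero_smul, sub_zero, Pi.smul_apply,
      smul_eq_mul])
  have h0' : f (xx z) = ((1 - ta z : ℝ) : ℂ) • e := by
    ext a
    exact sub_eq_zero.1 (h0 a)
  rcases le_total (n2 z) (1 / 4) with hz4 | hz4
  · exfalso
    apply he
    have h2 : Real.sqrt (n2 z) ≤ 1 / 2 := by
      rw [show (1 / 2 : ℝ) = Real.sqrt (1 / 4) by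
        rw [show (1 / 4 : ℝ) = (1 / 2) ^ 2 by norm_num, Real.sqrt_sq (by norm_num)]]
      exact Real.sqrt_le_sqrt hz4
    have h4 : ta z = 0 := max_eq_left (by linarith)
    rw [h4, sub_zero, ofReal_one, one_smul, xx_inner hz4] at h0'
    exact ⟨_, h0'⟩
  · refine ⟨z, hz, xx_cube hz4, ?_⟩
    rw [h0', norm_smul, norm_real]
    have h1 : 0 ≤ ta z := le_max_left _ _
    have h2 : ta z ≤ 1 := by
      apply max_le (by norm_num)
      have : Real.sqrt (n2 z) ≤ 1 := Real.sqrt_le_one.2 hz
      linarith
    rw [Real.norm_of_nonneg (by linarith)]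
    nlinarith [norm_nonneg e]

/-- The topological fact. -/
theorem top_zero {f : Mt → Fin 2 → ℂ} (hf : Continuous f) {c : ℂ} (hc : c ^ 3 = 1) (hc1 : c ≠ 1)
    (hrot : ∀ x, f (om • x) = c • f x) (hd : ContDiff ℝ 1 fun v => f (lm v)) :
    ∃ x : Mt, x ^ 3 = 1 ∧ f x = 0 := by
  have hK : IsCompact {z : ℂ × ℂ | n2 z ≤ 1 ∧ xx z ^ 3 = 1} := by
    have : {z : ℂ × ℂ | n2 z ≤ 1 ∧ xx z ^ 3 = 1} = {z | n2 z ≤ 1} ∩ {z | xx z ^ 3 = 1} := rfl
    rw [this]
    exact ball_compact.inter_right (isClosed_eq (continuous_xx.pow 3) continuous_const)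
  have hne : {z : ℂ × ℂ | n2 z ≤ 1 ∧ xx z ^ 3 = 1}.Nonempty := by
    obtain ⟨z, h1, h2, _⟩ := approx hf hc hc1 hrot hd one_pos
    exact ⟨z, h1, h2⟩
  obtain ⟨z, hz, hmin⟩ := hK.exists_isMinOn hne (hf.comp continuous_xx).norm.continuousOn
  refine ⟨xx z, hz.2, norm_eq_zero.1 (le_antisymm ?_ (norm_nonneg _))⟩
  apply le_of_forall_pos_le_add
  intro ε hε
  obtain ⟨w, h1, h2, h3⟩ := approx hf hc hc1 hrot hd hε
  have := hmin (show w ∈ _ from ⟨h1, h2⟩)
  simp only [mem_setOf_eq, Function.comp_apply] at this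
  linarith

end Pool.Agent.Helper88.P3
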